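import Pool.Agent.Helper22.Weiss.Window

/-! MP_6b0aee_an, packet W-I2: Core (i), first visit recursion. -/

open Set Filter Topology MeasureTheory Pool.Agent.Helper38.Weiss

namespace Pool.Agent.Helper22.Weiss

theorem core_i {X : Type*} (F : X → X) (S S' : Set (X × X)) (hSS' : S ⊆ S')
    (hirr : ∀ x, (x, x) ∉ S') (Y : ℝ → ℝ → ℕ → Set (ℕ → X)) (hY : Fam Y) (δ p : ℝ) (hδ : 0 < δ)
    (hp : 0 < p) (r₀ : ℕ)
    (hdom : ∀ ρ ≥ r₀, Leq univ (Conf F S ρ) (Y (δ / 4) 0 ρ) (pw S' ρ) (Real.exp (-(p * ρ))))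
    (r N : ℕ) (hr : r₀ ≤ r) (hrN : r < N) (D Q : Set X) (hDQ : ∀ x ∈ D, ∀ j < r, F^[j] x ∈ Q)
    (hDY : ∀ x ∈ D, orb F (F^[r] x) ∈ Y (δ / 4) 0 (N - r)) (p₁ γ β : ℝ) (hp₁ : 0 < p₁)
    (hp₁p : 2 * p₁ ≤ p) (hβ0 : 0 ≤ β) (hβ : β = (p * r - Real.log 2) / N) (hγ : 0 < γ)
    (hγδ : 8 * γ ≤ δ)
    (hmain : 2 * p₁ ≤ β * (1 - 2 * γ) - 2 * γ * Real.log 2) :
    ∃ W₀ : ℕ, ∀ W ≥ W₀, ∀ O : Set X, (∀ x ∈ O, x ∉ Q) →
      (∀ x ∈ O, ∃ g : ℕ, (g : ℝ) ≤ 2 * γ * W ∧ Cov F D N x W g) →
      ∃ K b₀ : ℝ, ∀ T : ℕ, Leq univ (Conf F (S ∪ (S' ∩ O ×ˢ O)) T) (Y δ b₀ T) (pw S' T)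
        (K * Real.exp (-(p₁ * T))) := by
  set x₀ : ℝ := Real.exp (-(p - p₁)) with hx₀
  have hx₀0 : 0 ≤ x₀ := Real.exp_nonneg _
  have hx₀1 : x₀ < 1 := by
    rw [hx₀, Real.exp_lt_one_iff]
    linarith
  set M : ℝ := r₀ * Real.exp (p₁ * r₀) + 1 / (1 - x₀) with hM
  have hev : ∀ᶠ W : ℕ in atTop, (r₀ : ℝ) ≤ δ / 4 * W ∧ Real.exp (-(p₁ * W)) * M ≤ 1 / 2 ∧
      1 ≤ W := by
    refine Filter.Eventually.and ?_ (Filter.Eventually.and ?_ (eventually_ge_atTop 1))
    · have h1 : Tendsto (fun W : ℕ => δ / 4 * (W : ℝ)) atTop atTop :=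
        tendsto_natCast_atTop_atTop.const_mul_atTop (by positivity)
      exact h1.eventually_ge_atTop _
    · have h1 : Tendsto (fun W : ℕ => p₁ * (W : ℝ)) atTop atTop :=
        tendsto_natCast_atTop_atTop.const_mul_atTop hp₁
      have h2 : Tendsto (fun W : ℕ => Real.exp (-(p₁ * W)) * M) atTop (𝓝 (0 * M)) :=
        (Real.tendsto_exp_neg_atTop_nhds_zero.comp h1).mul_const M
      rw [zero_mul] at h2
      exact h2.eventually_le_const (by norm_num)
  obtain ⟨W₀, hW₀⟩ := eventually_atTop.1 hev
  refine ⟨W₀, fun W hW O hOQ hOc => ?_⟩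
  obtain ⟨hW1, hW2, hW3⟩ := hW₀ W hW
  set R : Set (X × X) := S ∪ (S' ∩ O ×ˢ O) with hR
  have hRS' : R ⊆ S' := union_subset hSS' inter_subset_left
  have hRirr : ∀ x, (x, x) ∉ R := fun x h => hirr x (hRS' h)
  have hSirr : ∀ x, (x, x) ∉ S := fun x h => hirr x (hSS' h)
  have hDO : ∀ x ∈ D, ∀ j < r, F^[j] x ∉ O := fun x hx j hj hO => hOQ _ hO (hDQ x hx j hj)
  have hW0 : (0 : ℝ) ≤ W := by positivity
  -- the window
  set g₀ : ℕ := ⌊2 * γ * W⌋₊ with hg₀
  have hg₀' : (g₀ : ℝ) ≤ 2 * γ * W := Nat.floor_le (by positivity)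
  have hmonoC : ∀ (x : X) (T g : ℕ), Cov F D N x T g → ∀ g', g ≤ g' → Cov F D N x T g' := by
    intro x T g h
    induction h with
    | nil x g => exact fun g' _ => Cov.nil x g'
    | skip x T g _ ih =>
      intro g' hg'
      obtain ⟨g'', rfl⟩ : ∃ g'', g' = g'' + 1 := ⟨g' - 1, by omega⟩
      exact Cov.skip x T g'' (ih g'' (by omega))
    | block x T g hx _ ih => exact fun g' hg' => Cov.block x T g' hx (ih g' hg')
  have hOc' : ∀ x ∈ O, Cov F D N x W g₀ := by
    intro x hx
    obtain ⟨g, hg, hc⟩ := hOc x hx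
    exact hmonoC x W g hc g₀ (Nat.le_floor hg)
  have hwin := window F S S' hSS' hirr Y hY (δ / 4) p (by positivity) r N hrN (hdom r hr) D O hDO
    hDY β hβ0 hβ W g₀
  have hwin' : Leq {x | Cov F D N x W g₀} (Conf F R W) (Y (δ / 4) g₀ W) (pw S' W)
      (Real.exp (-(2 * p₁ * W))) := by
    refine hwin.mono ?_
    have e1 : (2 * Real.exp β) ^ g₀ = Real.exp (g₀ * (Real.log 2 + β)) := by
      rw [Real.exp_nat_mul, Real.exp_add, Real.exp_log (by norm_num)]
    rw [e1, ← Real.exp_add, Real.exp_le_exp]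
    have hlog : 0 ≤ Real.log 2 + β := by
      have := Real.log_pos (show (1 : ℝ) < 2 by norm_num)
      linarith
    have h1 : (g₀ : ℝ) * (Real.log 2 + β) ≤ 2 * γ * W * (Real.log 2 + β) :=
      mul_le_mul_of_nonneg_right hg₀' hlog
    have h2 := mul_le_mul_of_nonneg_right hmain hW0
    nlinarith
  set b₀ : ℝ := W + r₀ with hb₀
  set K : ℝ := 2 * Real.exp (p * (W + r₀)) with hK
  have hK0 : 0 < K := by positivity
  refine ⟨K, b₀, fun T => ?_⟩
  induction T using Nat.strong_induction_on with
  | _ T ih =>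
  rcases le_or_gt T (W + r₀) with hT | hT
  · have h1 : Leq univ (Conf F R T) (Y δ b₀ T) (pw S' T) 1 :=
      Leq.of_map (orb F) (fun x _ => hY.triv hδ.le (by
        rw [hb₀]
        exact_mod_cast hT)) (fun x _ y _ h => by
        obtain ⟨t, ht, h⟩ := h
        exact ⟨t, ht, hRS' h⟩) (fun z _ => not_pw hirr _ z)
    refine h1.mono ?_
    rw [hK, mul_assoc, ← Real.exp_add]
    have h2 : (T : ℝ) ≤ W + r₀ := by exact_mod_cast hT
    have h3 : 0 ≤ p * (W + r₀) + -(p₁ * T) := by
      have h4 : p₁ * T ≤ p * (W + r₀) := by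
        apply mul_le_mul _ h2 (by positivity) hp.le
        linarith
      linarith
    have := Real.one_le_exp h3
    linarith
  -- the classes
  let A : ℕ → Set X := fun i => if i = T - W then {x | ∀ t < T - W, F^[t] x ∉ O} else
    {x | F^[i] x ∈ O ∧ ∀ t < i, F^[t] x ∉ O}
  have hA : ∀ x ∈ (univ : Set X), ∃ i ∈ Finset.range (T - W + 1), x ∈ A i := by
    intro x _
    by_cases h : ∃ t, t < T - W ∧ F^[t] x ∈ O
    · classical
      have h1 := Nat.find_spec h
      refine ⟨Nat.find h, ?_, ?_⟩
      · rw [Finset.mem_range]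
        omega
      · show x ∈ (if Nat.find h = T - W then _ else _)
        rw [if_neg (by omega)]
        refine ⟨h1.2, fun t ht hO => Nat.find_min h ht ⟨by omega, hO⟩⟩
    · push Not at h
      refine ⟨T - W, by rw [Finset.mem_range]; omega, ?_⟩
      show x ∈ (if T - W = T - W then _ else _)
      rw [if_pos rfl]
      exact h
  let c : ℕ → ℝ := fun i => if i = T - W then K / 2 * Real.exp (-(p₁ * T)) else
    K * Real.exp (-(p₁ * T)) * Real.exp (-(p₁ * W)) *
      ((if i < r₀ then Real.exp (p₁ * r₀) else 0) + x₀ ^ i)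
  have hc0 : ∀ i ∈ Finset.range (T - W + 1), 0 ≤ c i := by
    intro i _
    show 0 ≤ (if i = T - W then _ else _)
    split_ifs <;> positivity
  have hmainL := Leq.iUnion (Finset.range (T - W + 1)) (r := Conf F R T) (V := Y δ b₀ T)
    (s := pw S' T) A hA c hc0 (fun i hi => ?_)
  · refine hmainL.mono ?_
    rw [Finset.sum_range_succ]
    have h1 : c (T - W) = K / 2 * Real.exp (-(p₁ * T)) := if_pos rfl
    have h2 : ∑ i ∈ Finset.range (T - W), c i = K * Real.exp (-(p₁ * T)) * Real.exp (-(p₁ * W)) *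
        ∑ i ∈ Finset.range (T - W), ((if i < r₀ then Real.exp (p₁ * r₀) else 0) + x₀ ^ i) := by
      rw [Finset.mul_sum]
      refine Finset.sum_congr rfl (fun i hi => ?_)
      have : i ≠ T - W := (Finset.mem_range.1 hi).ne
      exact if_neg this
    have h3 : ∑ i ∈ Finset.range (T - W), ((if i < r₀ then Real.exp (p₁ * r₀) else 0) + x₀ ^ i) ≤
        M := by
      rw [Finset.sum_add_distrib, hM]
      refine add_le_add ?_ ?_
      · rw [← Finset.sum_filter, Finset.sum_const, nsmul_eq_mul]
        refine mul_le_mul_of_nonneg_right ?_ (Real.exp_nonneg _)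
        have h4 : (Finset.range (T - W)).filter (fun i => i < r₀) ⊆ Finset.range r₀ := by
          intro i hi
          rw [Finset.mem_filter] at hi
          exact Finset.mem_range.2 hi.2
        have h5 := Finset.card_le_card h4
        rw [Finset.card_range] at h5
        exact_mod_cast h5
      · have h4 : (∑ i ∈ Finset.range (T - W), x₀ ^ i) * (1 - x₀) = 1 - x₀ ^ (T - W) := by
          have := geom_sum_mul x₀ (T - W)
          linear_combination -this
        rw [le_div_iff₀ (by linarith), h4]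
        have := pow_nonneg hx₀0 (T - W)
        linarith
    rw [h1, h2]
    have h4 : Real.exp (-(p₁ * W)) * ∑ i ∈ Finset.range (T - W),
        ((if i < r₀ then Real.exp (p₁ * r₀) else 0) + x₀ ^ i) ≤ 1 / 2 :=
      (mul_le_mul_of_nonneg_left h3 (Real.exp_nonneg _)).trans hW2
    have h5 : 0 ≤ K * Real.exp (-(p₁ * T)) := by positivity
    have h6 := mul_le_mul_of_nonneg_left h4 h5
    rw [mul_assoc (K * Real.exp (-(p₁ * T)))]
    linarith
  · rw [Finset.mem_range] at hi
    by_cases hiT : i = T - W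
    · -- terminal class
      have hAi : A i = {x | ∀ t < T - W, F^[t] x ∉ O} := if_pos hiT
      have hci : c i = K / 2 * Real.exp (-(p₁ * T)) := if_pos hiT
      rw [hAi, hci]
      have h1 := hdom (T - W) (by omega)
      have h1' : Leq univ (Conf F S (T - W)) (Y δ 0 (T - W)) (pw S' (T - W))
          (Real.exp (-(p * ((T - W : ℕ) : ℝ)))) := Fam.cast hY h1 rfl (by
            have : (0 : ℝ) ≤ ((T - W : ℕ) : ℝ) := by positivity
            nlinarith) le_rfl
      have h2 : Leq univ (Conf F R W) (Y δ W W) (pw S' W) 1 :=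
        Leq.of_map (orb F) (fun x _ => hY.triv hδ.le le_rfl) (fun x _ y _ h => by
          obtain ⟨t, ht, h⟩ := h
          exact ⟨t, ht, hRS' h⟩) (fun z _ => not_pw hirr _ z)
      have h3 := two hY hirr (U := {x | ∀ t < T - W, F^[t] x ∉ O}) (r := Conf F R T)
        (Real.exp_nonneg _) zero_le_one h1' h2 (fun z _ => not_conf F hSirr _ z)
        (fun z _ => not_conf F hRirr _ z) id (F^[T - W]) (fun _ _ => mem_univ _)
        (fun _ _ => mem_univ _) (fun x hx y _ h => by
          obtain ⟨t, ht, h⟩ := h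
          rcases lt_or_ge t (T - W) with htr | htr
          · left
            refine ⟨t, htr, ?_⟩
            rcases h with h | h
            · exact h
            · exact absurd h.2.1 (hx t htr)
          · right
            refine ⟨t - (T - W), by omega, ?_⟩
            rw [← Function.iterate_add_apply, ← Function.iterate_add_apply,
              Nat.sub_add_cancel htr]
            exact h)
      refine Fam.cast hY h3 (by omega) ?_ ?_
      · have e : ((T - W + W : ℕ) : ℝ) = T := by
          rw [Nat.sub_add_cancel (by omega)]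
        rw [e, hb₀]
        have : (0 : ℝ) ≤ r₀ := by positivity
        linarith
      · have e : ((T - W : ℕ) : ℝ) = (T : ℝ) - W := by
          rw [Nat.cast_sub (by omega)]
        rw [e, hK, mul_one]
        have e2 : 2 * Real.exp (p * (W + r₀)) / 2 * Real.exp (-(p₁ * T)) =
            Real.exp (p * (W + r₀) + -(p₁ * T)) := by
          rw [Real.exp_add]
          ring
        rw [e2, Real.exp_le_exp]
        have h4 : p₁ * T ≤ p * T := by
          apply mul_le_mul_of_nonneg_right _ (by positivity)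
          linarith
        have h5 : 0 ≤ p * r₀ := by positivity
        nlinarith
    · have hAi : A i = {x | F^[i] x ∈ O ∧ ∀ t < i, F^[t] x ∉ O} := if_neg hiT
      have hci : c i = K * Real.exp (-(p₁ * T)) * Real.exp (-(p₁ * W)) *
        ((if i < r₀ then Real.exp (p₁ * r₀) else 0) + x₀ ^ i) := if_neg hiT
      rw [hAi, hci]
      obtain ⟨T', hT'⟩ : ∃ T', T = i + W + T' := ⟨T - (i + W), by omega⟩
      have hih := ih T' (by omega)
      have hsplit : ∀ x ∈ {x | F^[i] x ∈ O ∧ ∀ t < i, F^[t] x ∉ O},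
          ∀ y ∈ {x | F^[i] x ∈ O ∧ ∀ t < i, F^[t] x ∉ O}, Conf F R (i + W) x y →
          Conf F S i x y ∨ Conf F R W (F^[i] x) (F^[i] y) := by
        intro x hx y _ h
        obtain ⟨t, ht, h⟩ := h
        rcases lt_or_ge t i with htr | htr
        · left
          refine ⟨t, htr, ?_⟩
          rcases h with h | h
          · exact h
          · exact absurd h.2.1 (hx.2 t htr)
        · right
          refine ⟨t - i, by omega, ?_⟩
          rw [← Function.iterate_add_apply, ← Function.iterate_add_apply,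
            Nat.sub_add_cancel htr]
          exact h
      have hsplit2 : ∀ x ∈ {x | F^[i] x ∈ O ∧ ∀ t < i, F^[t] x ∉ O},
          ∀ y ∈ {x | F^[i] x ∈ O ∧ ∀ t < i, F^[t] x ∉ O}, Conf F R T x y →
          Conf F R (i + W) x y ∨ Conf F R T' (F^[i + W] x) (F^[i + W] y) := by
        intro x _ y _ h
        obtain ⟨t, ht, h⟩ := h
        rcases lt_or_ge t (i + W) with htr | htr
        · exact Or.inl ⟨t, htr, h⟩
        · right
          refine ⟨t - (i + W), by omega, ?_⟩
          rw [← Function.iterate_add_apply, ← Function.iterate_add_apply,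
            Nat.sub_add_cancel htr]
          exact h
      have hcast : (T : ℝ) = i + W + T' := by rw [hT']; push_cast; ring
      -- the first piece
      have hfirst : Leq {x | F^[i] x ∈ O ∧ ∀ t < i, F^[t] x ∉ O} (Conf F R (i + W))
          (Y δ 0 (i + W)) (pw S' (i + W))
          (Real.exp (-(2 * p₁ * W)) * (if i < r₀ then 1 else Real.exp (-(p * i)))) := by
        by_cases hir : i < r₀
        · have h1 : Leq univ (Conf F S i) (Y (δ / 4) i i) (pw S' i) 1 :=
            Leq.of_map (orb F) (fun x _ => hY.triv (by positivity) le_rfl) (fun x _ y _ h => by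
              obtain ⟨t, ht, h⟩ := h
              exact ⟨t, ht, hSS' h⟩) (fun z _ => not_pw hirr _ z)
          have h2 := two hY hirr (U := {x | F^[i] x ∈ O ∧ ∀ t < i, F^[t] x ∉ O})
            (r := Conf F R (i + W)) zero_le_one (Real.exp_nonneg _) h1 hwin'
            (fun z _ => not_conf F hSirr _ z) (fun z _ => not_conf F hRirr _ z) id (F^[i])
            (fun _ _ => mem_univ _) (fun x hx => hOc' _ hx.1) hsplit
          refine Fam.cast hY h2 rfl ?_ ?_
          · push_cast
            have : (i : ℝ) ≤ r₀ := by exact_mod_cast hir.le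
            have h3 : (0 : ℝ) ≤ i := by positivity
            nlinarith
          · rw [if_pos hir, one_mul, mul_one]
        · have h2 := two hY hirr (U := {x | F^[i] x ∈ O ∧ ∀ t < i, F^[t] x ∉ O})
            (r := Conf F R (i + W)) (Real.exp_nonneg _) (Real.exp_nonneg _) (hdom i (by omega))
            hwin' (fun z _ => not_conf F hSirr _ z) (fun z _ => not_conf F hRirr _ z) id (F^[i])
            (fun _ _ => mem_univ _) (fun x hx => hOc' _ hx.1) hsplit
          refine Fam.cast hY h2 rfl ?_ ?_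
          · push_cast
            have h3 : (0 : ℝ) ≤ i := by positivity
            nlinarith
          · rw [if_neg hir, mul_comm]
      have h4 := two hY hirr (U := {x | F^[i] x ∈ O ∧ ∀ t < i, F^[t] x ∉ O}) (r := Conf F R T)
        (by positivity) (by positivity) hfirst hih (fun z _ => not_conf F hRirr _ z)
        (fun z _ => not_conf F hRirr _ z) id (F^[i + W]) (fun x hx => hx) (fun _ _ => mem_univ _)
        hsplit2
      refine Fam.cast hY h4 hT'.symm ?_ ?_
      · rw [← hT']
        linarith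
      · have e1 : Real.exp (-(2 * p₁ * W)) * (K * Real.exp (-(p₁ * T'))) =
            K * Real.exp (-(p₁ * T)) * Real.exp (-(p₁ * W)) * Real.exp (p₁ * i) := by
          have e0 : Real.exp (-(2 * p₁ * W)) * Real.exp (-(p₁ * T')) =
              Real.exp (-(p₁ * T)) * Real.exp (-(p₁ * W)) * Real.exp (p₁ * i) := by
            rw [← Real.exp_add, ← Real.exp_add, ← Real.exp_add]
            congr 1
            rw [hcast]
            ring
          linear_combination K * e0
        have e2 : Real.exp (-(2 * p₁ * W)) * (if i < r₀ then 1 else Real.exp (-(p * i))) *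
            (K * Real.exp (-(p₁ * T'))) = K * Real.exp (-(p₁ * T)) * Real.exp (-(p₁ * W)) *
            (Real.exp (p₁ * i) * (if i < r₀ then 1 else Real.exp (-(p * i)))) := by
          linear_combination (if i < r₀ then 1 else Real.exp (-(p * i))) * e1
        rw [e2]
        refine mul_le_mul_of_nonneg_left ?_ (by positivity)
        by_cases hir : i < r₀
        · rw [if_pos hir, if_pos hir, mul_one]
          have h5 : Real.exp (p₁ * i) ≤ Real.exp (p₁ * r₀) := by
            rw [Real.exp_le_exp]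
            apply mul_le_mul_of_nonneg_left _ hp₁.le
            exact_mod_cast hir.le
          have := pow_nonneg hx₀0 i
          linarith
        · rw [if_neg hir, if_neg hir, zero_add, hx₀, ← Real.exp_add, ← Real.exp_nat_mul,
            Real.exp_le_exp]
          apply le_of_eq
          ring

end Pool.Agent.Helper22.Weiss
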