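import Pool.Agent.Helper38.Weiss.Api

/-! MP_6b0aee_an, packet W-I1: one window. -/

open Set Filter Topology MeasureTheory Pool.Agent.Helper38.Weiss

namespace Pool.Agent.Helper22.Weiss

variable {X : Type*}

theorem Leq.of_empty {α β : Type*} {U : Set α} {r : α → α → Prop} {V : Set β}
    {s : β → β → Prop} (c : ℝ) (h : ∀ x, x ∉ U) : Leq U r V s c := by
  intro m k hk E hE hE'
  refine ⟨∅, by simp, by simp, ?_⟩
  have : E = ∅ := by
    rw [Finset.eq_empty_iff_forall_notMem]
    intro x hx
    exact h _ (hE x hx)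
  simp [this]

/-- concatenation of sequences -/
def cat (T : ℕ) (ξ ζ : ℕ → X) : ℕ → X := fun t => if t < T then ξ t else ζ (t - T)

theorem cat_mem {Y : ℝ → ℝ → ℕ → Set (ℕ → X)} (hY : Fam Y) {δ b b' : ℝ} {T T' : ℕ}
    {ξ ζ : ℕ → X} (h1 : ξ ∈ Y δ b T) (h2 : ζ ∈ Y δ b' T') :
    cat T ξ ζ ∈ Y δ (b + b') (T + T') := by
  refine hY.concat (hY.loc (ξ := ξ) (fun t ht => ?_) h1) ?_
  · unfold cat
    rw [if_pos ht]
  · have e : (fun t => cat T ξ ζ (T + t)) = ζ := by
      funext t
      unfold cat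
      rw [if_neg (by omega), Nat.add_sub_cancel_left]
    rw [e]
    exact h2

theorem cat_pw {S : Set (X × X)} {T T' : ℕ} {ξ ζ ξ' ζ' : ℕ → X}
    (h : pw S T ξ ξ' ∨ pw S T' ζ ζ') : pw S (T + T') (cat T ξ ζ) (cat T ξ' ζ') := by
  rcases h with ⟨t, ht, h⟩ | ⟨t, ht, h⟩
  · refine ⟨t, by omega, ?_⟩
    unfold cat
    rwa [if_pos ht, if_pos ht]
  · refine ⟨T + t, by omega, ?_⟩
    unfold cat
    rwa [if_neg (by omega), if_neg (by omega), Nat.add_sub_cancel_left]

/-- Cutting orbits into two pieces. -/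
theorem two {α β γ : Type*} {Y : ℝ → ℝ → ℕ → Set (ℕ → X)} (hY : Fam Y) {S' : Set (X × X)}
    (hirr : ∀ x, (x, x) ∉ S') {U : Set α} {r : α → α → Prop} {U₁ : Set β} {r₁ : β → β → Prop}
    {U₂ : Set γ} {r₂ : γ → γ → Prop} {δ b b' c₁ c₂ : ℝ} {T T' : ℕ} (hc₁ : 0 ≤ c₁)
    (hc₂ : 0 ≤ c₂)
    (h₁ : Leq U₁ r₁ (Y δ b T) (pw S' T) c₁) (h₂ : Leq U₂ r₂ (Y δ b' T') (pw S' T') c₂)
    (hr₁ : ∀ z ∈ U₁, ¬ r₁ z z) (hr₂ : ∀ z ∈ U₂, ¬ r₂ z z) (f : α → β) (g : α → γ)
    (hf : ∀ x ∈ U, f x ∈ U₁) (hg : ∀ x ∈ U, g x ∈ U₂)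
    (hr : ∀ x ∈ U, ∀ y ∈ U, r x y → r₁ (f x) (f y) ∨ r₂ (g x) (g y)) :
    Leq U r (Y δ (b + b') (T + T')) (pw S' (T + T')) (c₁ * c₂) := by
  have e1 : Leq U r (U₁ ×ˢ U₂) (fun x y => r₁ x.1 y.1 ∨ r₂ x.2 y.2) 1 :=
    Leq.of_map (fun x => (f x, g x)) (fun x hx => ⟨hf x hx, hg x hx⟩) hr (fun z hz h => by
      rcases h with h | h
      · exact hr₁ _ hz.1 h
      · exact hr₂ _ hz.2 h)
  have e2 := Leq.prod hc₁ h₁ h₂ hr₂ (fun z _ => not_pw hirr T z)
  have e3 : Leq (Y δ b T ×ˢ Y δ b' T') (fun x y => pw S' T x.1 y.1 ∨ pw S' T' x.2 y.2)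
      (Y δ (b + b') (T + T')) (pw S' (T + T')) 1 :=
    Leq.of_map (fun z => cat T z.1 z.2) (fun x hx => cat_mem hY hx.1 hx.2)
      (fun x _ y _ h => cat_pw h) (fun z _ => not_pw hirr _ z)
  have e4 := (e1.trans zero_le_one e2).trans (by positivity) e3
  rw [one_mul, mul_one] at e4
  exact e4

theorem Fam.cast {Y : ℝ → ℝ → ℕ → Set (ℕ → X)} (hY : Fam Y) {S' : Set (X × X)} {α : Type*}
    {U : Set α} {r : α → α → Prop} {δ b δ' b' c c' : ℝ} {T T' : ℕ}
    (h : Leq U r (Y δ b T) (pw S' T) c) (hT : T = T') (hb : δ * T + b ≤ δ' * T + b')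
    (hc : c ≤ c') : Leq U r (Y δ' b' T') (pw S' T') c' := by
  subst hT
  have hc0 : Leq (Y δ b T) (pw S' T) (Y δ' b' T) (pw S' T) 1 :=
    Leq.incl (hY.mono hb) (fun _ _ _ _ h => h)
  intro m k hk E hE hE'
  obtain ⟨E₁, h1, h2, h3⟩ := h m k hk E hE hE'
  exact ⟨E₁, fun x hx => hY.mono hb (h1 x hx), h2,
    h3.trans (mul_le_mul_of_nonneg_right hc (by positivity))⟩

theorem window {X : Type*} (F : X → X) (S S' : Set (X × X)) (hSS' : S ⊆ S')
    (hirr : ∀ x, (x, x) ∉ S') (Y : ℝ → ℝ → ℕ → Set (ℕ → X)) (hY : Fam Y) (δ p : ℝ) (hδ : 0 < δ)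
    (r N : ℕ) (hrN : r < N)
    (hdom : Leq univ (Conf F S r) (Y δ 0 r) (pw S' r) (Real.exp (-(p * r))))
    (D O : Set X) (hDO : ∀ x ∈ D, ∀ j < r, F^[j] x ∉ O)
    (hDY : ∀ x ∈ D, orb F (F^[r] x) ∈ Y δ 0 (N - r)) (β : ℝ) (hβ0 : 0 ≤ β)
    (hβ : β = (p * r - Real.log 2) / N) (T g : ℕ) :
    Leq {x | Cov F D N x T g} (Conf F (S ∪ (S' ∩ O ×ˢ O)) T) (Y δ g T) (pw S' T)
      ((2 * Real.exp β) ^ g * Real.exp (-(β * T))) := by
  set R : Set (X × X) := S ∪ (S' ∩ O ×ˢ O) with hR
  have hRS' : R ⊆ S' := union_subset hSS' inter_subset_left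
  have hRirr : ∀ x, (x, x) ∉ R := fun x h => hirr x (hRS' h)
  have hSirr : ∀ x, (x, x) ∉ S := fun x h => hirr x (hSS' h)
  have hN : 0 < N := by omega
  have hβN : β * N = p * r - Real.log 2 := by
    rw [hβ]
    have : (N : ℝ) ≠ 0 := by exact_mod_cast hN.ne'
    field_simp
  induction T using Nat.strong_induction_on generalizing g with
  | _ T ih =>
  rcases Nat.eq_zero_or_pos T with rfl | hT
  · have h1 : Leq {x | Cov F D N x 0 g} (Conf F R 0) (Y δ g 0) (pw S' 0) 1 :=
      Leq.of_map (orb F) (fun x _ => hY.triv hδ.le (by simp)) (fun x _ y _ h => by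
        obtain ⟨t, ht, -⟩ := h
        omega) (fun z _ => not_pw hirr _ z)
    refine h1.mono ?_
    have h2 : (1 : ℝ) ≤ 2 * Real.exp β := by
      have := Real.one_le_exp hβ0
      linarith
    have h3 : (1 : ℝ) ≤ (2 * Real.exp β) ^ g := one_le_pow₀ h2
    simpa using h3
  -- the two classes
  let A : Bool → Set X := fun i => bif i then
    {x | ∃ T' g', T = T' + 1 ∧ g = g' + 1 ∧ Cov F D N (F x) T' g'} else
    {x | ∃ T', T = N + T' ∧ x ∈ D ∧ Cov F D N (F^[N] x) T' g}
  have hA : ∀ x ∈ {x | Cov F D N x T g}, ∃ i ∈ (Finset.univ : Finset Bool), x ∈ A i := by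
    intro x hx
    have hx' : Cov F D N x T g := hx
    cases hx' with
    | nil => exact absurd hT (lt_irrefl _)
    | skip _ T' g' h => exact ⟨true, Finset.mem_univ _, T', g', rfl, rfl, h⟩
    | block _ T' _ hD h => exact ⟨false, Finset.mem_univ _, T', rfl, hD, h⟩
  set lam : ℝ := (2 * Real.exp β) ^ g * Real.exp (-(β * T)) with hlam
  have hlam0 : 0 ≤ lam := by positivity
  have hmain := Leq.iUnion (Finset.univ : Finset Bool) (r := Conf F R T) (V := Y δ g T)
    (s := pw S' T) A hA (fun _ => lam / 2) (fun _ _ => by positivity) (fun i _ => ?_)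
  · refine hmain.mono ?_
    simp only [Finset.sum_const, Finset.card_univ, Fintype.card_bool, nsmul_eq_mul, Nat.cast_ofNat]
    linarith
  · cases i with
    | true =>
      by_cases hcase : ∃ T' g', T = T' + 1 ∧ g = g' + 1
      · obtain ⟨T', g', rfl, rfl⟩ := hcase
        have h1 : Leq univ (pw S' 1) (Y δ 1 1) (pw S' 1) 1 :=
          Leq.incl (fun ξ _ => hY.triv hδ.le (by simp)) (fun _ _ _ _ h => h)
        have h2 := ih T' (by omega) g'
        have h3 := two hY hirr (U := A true) (r := Conf F R (T' + 1)) zero_le_one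
          (by positivity) h1 h2 (fun z _ => not_pw hirr 1 z) (fun z _ => not_conf F hRirr T' z)
          (orb F) F (fun _ _ => mem_univ _) (fun x hx => by
            obtain ⟨T'', g'', e1, e2, h⟩ := hx
            obtain rfl : T' = T'' := by omega
            obtain rfl : g' = g'' := by omega
            exact h) (fun x _ y _ h => by
            obtain ⟨t, ht, h⟩ := h
            rcases Nat.eq_zero_or_pos t with rfl | ht0
            · exact Or.inl ⟨0, by omega, hRS' h⟩
            · right
              refine ⟨t - 1, by omega, ?_⟩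
              obtain ⟨t, rfl⟩ : ∃ t', t = t' + 1 := ⟨t - 1, by omega⟩
              rw [Function.iterate_succ_apply, Function.iterate_succ_apply] at h
              simpa using h)
        refine Fam.cast hY h3 (by omega) ?_ ?_
        · push_cast
          linarith
        · rw [hlam, one_mul, pow_succ]
          have e1 : Real.exp (-(β * ((T' + 1 : ℕ) : ℝ))) = Real.exp (-β) * Real.exp (-(β * T')) := by
            rw [← Real.exp_add]
            congr 1
            push_cast
            ring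
          have e2 : Real.exp β * Real.exp (-β) = 1 := by rw [← Real.exp_add]; simp
          rw [e1]
          apply le_of_eq
          linear_combination (-((2 * Real.exp β) ^ g' * Real.exp (-(β * T')))) * e2
      · refine Leq.of_empty _ (fun x hx => hcase ?_)
        obtain ⟨T'', g'', e1, e2, -⟩ := hx
        exact ⟨T'', g'', e1, e2⟩
    | false =>
      by_cases hcase : ∃ T', T = N + T'
      · obtain ⟨T', rfl⟩ := hcase
        have h1 : Leq {z | orb F z ∈ Y δ 0 (N - r)} (Conf F S' (N - r)) (Y δ 0 (N - r))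
            (pw S' (N - r)) 1 :=
          Leq.of_map (orb F) (fun x hx => hx) (fun x _ y _ h => h) (fun z _ => not_pw hirr _ z)
        have h2 := two hY hirr (U := {x | x ∈ D}) (r := Conf F R N)
          (Real.exp_nonneg _) zero_le_one hdom h1 (fun z _ => not_conf F hSirr r z)
          (fun z _ => not_conf F hirr _ z) id (F^[r]) (fun _ _ => mem_univ _)
          (fun x hx => hDY x hx) (fun x hx y hy h => by
            obtain ⟨t, ht, h⟩ := h
            rcases lt_or_ge t r with htr | htr
            · left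
              refine ⟨t, htr, ?_⟩
              rcases h with h | h
              · exact h
              · exact absurd h.2.1 (hDO x hx t htr)
            · right
              refine ⟨t - r, by omega, ?_⟩
              rw [← Function.iterate_add_apply, ← Function.iterate_add_apply,
                Nat.sub_add_cancel htr]
              exact hRS' h)
        have h3 := ih T' (by omega) g
        have h4 := two hY hirr (U := A false) (r := Conf F R (N + T')) (by positivity)
          (by positivity) h2 h3 (fun z _ => not_conf F hRirr N z)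
          (fun z _ => not_conf F hRirr T' z) id (F^[N]) (fun x hx => by
            obtain ⟨T'', e1, h, -⟩ := hx
            exact h) (fun x hx => by
            obtain ⟨T'', e1, -, h⟩ := hx
            obtain rfl : T' = T'' := by omega
            exact h) (fun x _ y _ h => by
            obtain ⟨t, ht, h⟩ := h
            rcases lt_or_ge t N with htN | htN
            · exact Or.inl ⟨t, htN, h⟩
            · right
              refine ⟨t - N, by omega, ?_⟩
              rw [← Function.iterate_add_apply, ← Function.iterate_add_apply,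
                Nat.sub_add_cancel htN]
              exact h)
        refine Fam.cast hY h4 (by omega) ?_ ?_
        · have e : ((r + (N - r) + T' : ℕ) : ℝ) = (N : ℝ) + T' := by
            rw [Nat.add_sub_cancel' hrN.le]
            push_cast
            ring
          rw [e]
          linarith
        · rw [hlam, mul_one]
          have e1 : Real.exp (-(β * ((N + T' : ℕ) : ℝ))) =
              2 * (Real.exp (-(p * r)) * Real.exp (-(β * T'))) := by
            have e2 : -(β * ((N + T' : ℕ) : ℝ)) = Real.log 2 + (-(p * r) + -(β * T')) := by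
              push_cast
              linarith
            rw [e2, Real.exp_add, Real.exp_add, Real.exp_log (by norm_num)]
          rw [e1]
          apply le_of_eq
          ring
      · refine Leq.of_empty _ (fun x hx => hcase ?_)
        obtain ⟨T'', e1, -⟩ := hx
        exact ⟨T'', e1⟩

end Pool.Agent.Helper22.Weiss
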